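import Pool.Agent.Helper81.BV.Small
import Pool.Agent.Helper1.NF.Alt
import Pool.Agent.Helper18.NF.StA

/-!
# Project NF, module NF-19: prime number theorem for small conductors, for systems
-/

set_option autoImplicit false

open Finset Filter Topology MeasureTheory
open scoped ArithmeticFunction.vonMangoldt ArithmeticFunction.Moebius ArithmeticFunction.zeta

namespace Pool.Agent.Helper30.NF

open Pool.Agent.Helper18.NF Pool.Agent.Helper18.BV
open Pool.Agent.Helper81.BV (tsum_rpow_le iterate_logMul pow_log_le st st_re gk gk_smooth gk_compact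
  wt_zero st_sub_one_norm_le)

variable {n : ℕ} {r L : ArithmeticFunction ℝ} {κ : ℝ}

/-- twist of an arithmetic function -/
noncomputable def ct (f : ArithmeticFunction ℝ) {q : ℕ} (χ : DirichletCharacter ℂ q) :
    ArithmeticFunction ℂ :=
  ⟨fun m => (f m : ℂ) * χ (m : ZMod q), by simp⟩

lemma ct_apply (f : ArithmeticFunction ℝ) {q : ℕ} (χ : DirichletCharacter ℂ q) (m : ℕ) :
    ct f χ m = (f m : ℂ) * χ (m : ZMod q) := rfl

lemma ct_mul (f g : ArithmeticFunction ℝ) {q : ℕ} (χ : DirichletCharacter ℂ q) :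
    ct f χ * ct g χ = ct (f * g) χ := by
  ext m
  rw [ct_apply, ArithmeticFunction.mul_apply, ArithmeticFunction.mul_apply]
  push_cast
  rw [Finset.sum_mul]
  refine Finset.sum_congr rfl fun p hp => ?_
  have h := (Nat.mem_divisorsAntidiagonal.1 hp).1
  rw [ct_apply, ct_apply, ← h]
  push_cast
  rw [map_mul]
  ring

lemma norm_ct_le {f : ArithmeticFunction ℝ} {g : ℕ → ℝ} (h : ∀ m, |f m| ≤ g m) {q : ℕ}
    (χ : DirichletCharacter ℂ q) (m : ℕ) : ‖ct f χ m‖ ≤ g m := by
  rw [ct_apply, norm_mul, Complex.norm_real, Real.norm_eq_abs]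
  calc |f m| * ‖χ (m : ZMod q)‖ ≤ |f m| * 1 :=
        mul_le_mul_of_nonneg_left (DirichletCharacter.norm_le_one χ _) (abs_nonneg _)
    _ ≤ g m := by rw [mul_one]; exact h m

lemma summable_r (h : IsSys n r L κ) {q : ℕ} (χ : DirichletCharacter ℂ q) {s : ℂ}
    (hs : 1 < s.re) : LSeriesSummable (fun m => ct r χ m) s :=
  Pool.Agent.Helper1.NF.summable_dom h
    (norm_ct_le (fun m => (abs_of_nonneg (h.r_nonneg m)).le) χ) hs

lemma summable_L (h : IsSys n r L κ) {q : ℕ} (χ : DirichletCharacter ℂ q) {s : ℂ}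
    (hs : 1 < s.re) : LSeriesSummable (fun m => ct L χ m) s := by
  have h1 := ArithmeticFunction.LSeriesSummable_vonMangoldt hs
  refine Summable.of_norm_bounded (g := fun m => (n : ℝ) * ‖LSeries.term (fun m => (Λ m : ℂ)) s m‖)
    (h1.norm.mul_left _) ?_
  intro m
  rcases eq_or_ne m 0 with rfl | hm
  · simp
  · rw [LSeries.term_of_ne_zero hm, LSeries.term_of_ne_zero hm, norm_div, norm_div, ← mul_div_assoc]
    refine div_le_div_of_nonneg_right ?_ (norm_nonneg _)
    have h2 := norm_ct_le (f := L) (g := fun m => n * Λ m)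
      (fun m => by rw [abs_of_nonneg (h.L_nonneg m)]; exact h.L_le m) χ m
    refine h2.trans (le_of_eq ?_)
    rw [Complex.norm_real, Real.norm_of_nonneg ArithmeticFunction.vonMangoldt_nonneg]

lemma ne_zero (h : IsSys n r L κ) {q : ℕ} (χ : DirichletCharacter ℂ q) {s : ℂ}
    (hs : 1 < s.re) : LSeries (fun m => ct r χ m) s ≠ 0 := by
  obtain ⟨mu, hmu, hle⟩ := h.exists_inv
  have h1 : LSeriesSummable (fun m => ct mu χ m) s :=
    Pool.Agent.Helper1.NF.summable_dom h (norm_ct_le hle χ) hs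
  have h2 := ArithmeticFunction.LSeries_mul' (summable_r h χ hs) h1
  rw [ct_mul, hmu] at h2
  have h3 : LSeries (fun m => ct 1 χ m) s = 1 := by
    have h4 : (fun m => ct 1 χ m) = LSeries.delta := by
      funext m
      rw [ct_apply]
      unfold LSeries.delta
      rcases eq_or_ne m 1 with rfl | hm
      · simp
      · rw [ArithmeticFunction.one_apply_ne hm]
        simp [hm]
    rw [h4, LSeries_delta]
    rfl
  rw [h3] at h2
  intro h0
  rw [h0, zero_mul] at h2
  exact one_ne_zero h2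

lemma logder (h : IsSys n r L κ) {q : ℕ} (χ : DirichletCharacter ℂ q) {s : ℂ}
    (hs : 1 < s.re) : LSeries (fun m => ct L χ m) s =
      -(deriv (LSeries (tw r χ)) s / LSeries (tw r χ) s) := by
  have hab : LSeries.abscissaOfAbsConv (tw r χ) < s.re := by
    obtain ⟨y, hy1, hy2⟩ := exists_between hs
    have hsum : LSeriesSummable (tw r χ) (y : ℂ) := summable_r h χ (by simpa using hy1)
    refine lt_of_le_of_lt hsum.abscissaOfAbsConv_le ?_
    simpa using hy2
  have h1 := LSeries_deriv hab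
  have h2 := ArithmeticFunction.LSeries_mul' (summable_r h χ hs) (summable_L h χ hs)
  rw [ct_mul] at h2
  have h3 : LSeries (fun m => ct (r * L) χ m) s = LSeries (LSeries.logMul (tw r χ)) s := by
    congr 1
    funext m
    rw [ct_apply, h.conv m]
    simp only [LSeries.logMul, tw]
    push_cast
    ring
  have h4 : LSeries (tw r χ) s ≠ 0 := ne_zero h χ hs
  have h5 : LSeries (fun m => ct r χ m) s = LSeries (tw r χ) s := rfl
  rw [h3, h5] at h2
  rw [h1, h2, neg_div, neg_neg]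
  field_simp

/-- The coefficients `(log m)^k χ(m) L(m)`. -/
noncomputable def co (L : ArithmeticFunction ℝ) (k : ℕ) {q : ℕ} (χ : DirichletCharacter ℂ q)
    (m : ℕ) : ℂ :=
  Complex.log m ^ k * (χ (m : ZMod q) * ((L m : ℝ) : ℂ))

lemma lseries_co (h : IsSys n r L κ) (hC : ∀ s : ℂ, 1 < s.re → ∀ (q : ℕ) [NeZero q]
      (χ : DirichletCharacter ℂ q), χ ≠ 1 → LF (tw r χ) s = LSeries (tw r χ) s) (k : ℕ) {q : ℕ}
    [NeZero q] (χ : DirichletCharacter ℂ q) (hχ : χ ≠ 1) {s : ℂ} (hs : 1 < s.re) :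
    LSeries (co L k χ) s = -((-1) ^ k * iteratedDeriv k (fun z =>
      deriv (LF (tw r χ)) z / LF (tw r χ) z) s) := by
  set f : ℕ → ℂ := fun m => ct L χ m with hf
  have habs : LSeries.abscissaOfAbsConv f < s.re := by
    obtain ⟨y, hy1, hy2⟩ := exists_between hs
    have hsum : LSeriesSummable f (y : ℂ) := summable_L h χ (by simpa using hy1)
    refine lt_of_le_of_lt hsum.abscissaOfAbsConv_le ?_
    simpa using hy2
  have h1 := LSeries_iteratedDeriv k habs
  have h2 : LSeries.logMul^[k] f = co L k χ := by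
    ext m
    rw [iterate_logMul, co, hf]
    simp only [ct_apply]
    ring
  rw [h2] at h1
  have h3 : (LSeries f) =ᶠ[𝓝 s] fun z => -(deriv (LF (tw r χ)) z / LF (tw r χ) z) := by
    have hop : IsOpen {z : ℂ | 1 < z.re} := isOpen_lt continuous_const Complex.continuous_re
    filter_upwards [hop.mem_nhds hs] with z hz
    have h4 : LF (tw r χ) =ᶠ[𝓝 z] LSeries (tw r χ) := by
      filter_upwards [hop.mem_nhds hz] with w hw
      exact hC w hw q χ hχ
    rw [h4.deriv_eq, h4.eq_of_nhds]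
    exact logder h χ hz
  have h4 := h3.iteratedDeriv_eq k
  have h5 : iteratedDeriv k (fun z => -(deriv (LF (tw r χ)) z / LF (tw r χ) z)) s =
      -iteratedDeriv k (fun z => deriv (LF (tw r χ)) z / LF (tw r χ) z) s :=
    iteratedDeriv_fun_neg k _ s
  rw [h5, h1] at h4
  have h6 : ((-1 : ℂ) ^ k) * (-1) ^ k = 1 := by
    rw [← mul_pow]
    simp
  calc LSeries (co L k χ) s = ((-1 : ℂ) ^ k * (-1) ^ k) * LSeries (co L k χ) s := by
        rw [h6, one_mul]
    _ = (-1) ^ k * ((-1) ^ k * LSeries (co L k χ) s) := by ring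
    _ = _ := by rw [h4]; ring

lemma norm_co_le (h : IsSys n r L κ) (k : ℕ) {q : ℕ} (χ : DirichletCharacter ℂ q) (m : ℕ) :
    ‖co L k χ m‖ ≤ n * Real.log m ^ (k + 1) := by
  rw [co, norm_mul, norm_mul, norm_pow, ← Complex.natCast_log, Complex.norm_real,
    Complex.norm_real, Real.norm_of_nonneg (Real.log_natCast_nonneg m),
    Real.norm_of_nonneg (h.L_nonneg m), pow_succ]
  have h1 : ‖χ (m : ZMod q)‖ * L m ≤ n * Real.log m := by
    calc ‖χ (m : ZMod q)‖ * L m ≤ 1 * (n * Real.log m) := by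
          refine mul_le_mul (DirichletCharacter.norm_le_one χ _) ?_ (h.L_nonneg m) zero_le_one
          exact (h.L_le m).trans (mul_le_mul_of_nonneg_left
            ArithmeticFunction.vonMangoldt_le_log (Nat.cast_nonneg n))
      _ = n * Real.log m := one_mul _
  calc Real.log m ^ k * (‖χ (m : ZMod q)‖ * L m) ≤ Real.log m ^ k * (n * Real.log m) :=
        mul_le_mul_of_nonneg_left h1 (pow_nonneg (Real.log_natCast_nonneg m) k)
    _ = _ := by ring

lemma co_zero (L : ArithmeticFunction ℝ) (k : ℕ) {q : ℕ} (χ : DirichletCharacter ℂ q) :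
    co L k χ 0 = 0 := by
  simp [co]

/-- The absolute values of the terms. -/
noncomputable def bb (L : ArithmeticFunction ℝ) (k : ℕ) {q : ℕ} (χ : DirichletCharacter ℂ q)
    (l : ℝ) (m : ℕ) : ℝ :=
  ‖co L k χ m‖ * (m : ℝ) ^ (-(1 + 1 / l))

lemma bb_nonneg (L : ArithmeticFunction ℝ) (k : ℕ) {q : ℕ} (χ : DirichletCharacter ℂ q)
    (l : ℝ) (m : ℕ) : 0 ≤ bb L k χ l m := by
  unfold bb
  positivity

lemma bb_le (h : IsSys n r L κ) (k : ℕ) {q : ℕ} (χ : DirichletCharacter ℂ q) (l : ℝ) (hl : 0 < l)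
    (m : ℕ) : bb L k χ l m ≤
      (n * ((k + 1).factorial * (2 * l) ^ (k + 1))) * (m : ℝ) ^ (-(1 + 1 / (2 * l))) := by
  unfold bb
  rcases eq_or_ne m 0 with rfl | hn
  · rw [co_zero, norm_zero, zero_mul]
    positivity
  have hn' : (0 : ℝ) < m := by exact_mod_cast Nat.pos_of_ne_zero hn
  have h1 : ‖co L k χ m‖ ≤ n * ((k + 1).factorial * (2 * l) ^ (k + 1) * (m : ℝ) ^ (1 / (2 * l))) :=
    (norm_co_le h k χ m).trans (mul_le_mul_of_nonneg_left (pow_log_le l hl (k + 1) m hn)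
      (Nat.cast_nonneg n))
  calc ‖co L k χ m‖ * (m : ℝ) ^ (-(1 + 1 / l)) ≤
      (n * ((k + 1).factorial * (2 * l) ^ (k + 1) * (m : ℝ) ^ (1 / (2 * l)))) *
        (m : ℝ) ^ (-(1 + 1 / l)) := mul_le_mul_of_nonneg_right h1 (by positivity)
    _ = (n * ((k + 1).factorial * (2 * l) ^ (k + 1))) * ((m : ℝ) ^ (1 / (2 * l)) *
        (m : ℝ) ^ (-(1 + 1 / l))) := by ring
    _ = _ := by
      rw [← Real.rpow_add hn']
      congr 2
      field_simp
      ring

lemma bb_sum (h : IsSys n r L κ) (k : ℕ) {q : ℕ} (χ : DirichletCharacter ℂ q) (l : ℝ)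
    (hl : 1 ≤ l) : Summable (bb L k χ l) ∧
      ∑' m, bb L k χ l m ≤ (n * ((k + 1).factorial * 2 ^ (k + 1) * 3)) * l ^ (k + 2) := by
  have hl0 : 0 < l := by linarith
  obtain ⟨hs, hle⟩ := tsum_rpow_le (1 / (2 * l)) (by positivity)
  have hs2 := hs.mul_left (n * ((k + 1).factorial * (2 * l) ^ (k + 1)) : ℝ)
  have hsum : Summable (bb L k χ l) :=
    Summable.of_nonneg_of_le (bb_nonneg L k χ l) (bb_le h k χ l hl0) hs2
  refine ⟨hsum, ?_⟩
  calc ∑' m, bb L k χ l m ≤ ∑' m : ℕ, (n * ((k + 1).factorial * (2 * l) ^ (k + 1)) : ℝ) *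
        (m : ℝ) ^ (-(1 + 1 / (2 * l))) := hsum.tsum_le_tsum (bb_le h k χ l hl0) hs2
    _ = (n * ((k + 1).factorial * (2 * l) ^ (k + 1)) : ℝ) *
        ∑' m : ℕ, (m : ℝ) ^ (-(1 + 1 / (2 * l))) := tsum_mul_left
    _ ≤ (n * ((k + 1).factorial * (2 * l) ^ (k + 1)) : ℝ) * (3 * l) := by
        refine mul_le_mul_of_nonneg_left (hle.trans ?_) (by positivity)
        rw [one_div_one_div]
        linarith
    _ = _ := by rw [mul_pow]; ring

lemma norm_term (L : ArithmeticFunction ℝ) (k : ℕ) {q : ℕ} (χ : DirichletCharacter ℂ q) (l t : ℝ) (n : ℕ) :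
    ‖LSeries.term (co L k χ) (st l t) n‖ = bb L k χ l n := by
  rw [LSeries.norm_term_eq, bb, st_re]
  split_ifs with h
  · rw [h, co_zero, norm_zero, zero_mul]
  · rw [Real.rpow_neg (Nat.cast_nonneg n), div_eq_mul_inv]

lemma term_eq (L : ArithmeticFunction ℝ) (k : ℕ) {q : ℕ} (χ : DirichletCharacter ℂ q) (l t : ℝ) (n : ℕ) (hn : n ≠ 0) :
    LSeries.term (co L k χ) (st l t) n = co L k χ n * ((n : ℂ)⁻¹ * Complex.exp (-(Real.log n / l : ℝ))) *
      Complex.exp (t * (Real.log n / l : ℝ) * Complex.I) := by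
  have hn' : (0 : ℝ) < n := by exact_mod_cast Nat.pos_of_ne_zero hn
  have hnc : (n : ℂ) ≠ 0 := by exact_mod_cast hn
  rw [LSeries.term_of_ne_zero hn, div_eq_mul_inv, mul_assoc]
  congr 1
  rw [Complex.cpow_def_of_ne_zero hnc, ← Complex.exp_neg, mul_assoc, ← Complex.exp_add]
  have h1 : (n : ℂ)⁻¹ = Complex.exp (-(Real.log n : ℂ)) := by
    rw [Complex.exp_neg, Complex.natCast_log, Complex.exp_log hnc]
  rw [h1, ← Complex.exp_add, ← Complex.natCast_log]
  congr 1
  unfold st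
  push_cast
  ring

lemma integral_term (L : ArithmeticFunction ℝ) {h : ℝ → ℂ} (k : ℕ) {q : ℕ} (χ : DirichletCharacter ℂ q) (l : ℝ)
    (G : ℝ → ℝ) (hrep : ∀ v : ℝ, (G v : ℂ) = ∫ t : ℝ, h t * Complex.exp (t * v * Complex.I))
    (n : ℕ) : ∫ t, h t * LSeries.term (co L k χ) (st l t) n =
      co L k χ n * ((n : ℂ)⁻¹ * Complex.exp (-(Real.log n / l : ℝ))) * G (Real.log n / l) := by
  rcases eq_or_ne n 0 with rfl | hn
  · simp [co_zero]
  · rw [hrep, ← integral_const_mul]
    congr 1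
    ext t
    rw [term_eq L k χ l t n hn]
    ring

lemma continuous_term (L : ArithmeticFunction ℝ) (k : ℕ) {q : ℕ} (χ : DirichletCharacter ℂ q) (l : ℝ) (n : ℕ) :
    Continuous fun t : ℝ => LSeries.term (co L k χ) (st l t) n := by
  rcases eq_or_ne n 0 with rfl | hn
  · simp [continuous_const]
  · have : (fun t : ℝ => LSeries.term (co L k χ) (st l t) n) = fun t : ℝ =>
        co L k χ n * ((n : ℂ)⁻¹ * Complex.exp (-(Real.log n / l : ℝ))) *
          Complex.exp (t * (Real.log n / l : ℝ) * Complex.I) := by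
      ext t
      exact term_eq L k χ l t n hn
    rw [this]
    fun_prop

lemma identity (hS : IsSys n r L κ) {g : ℝ → ℝ} (hg : IsWt g) {h : ℝ → ℂ} (hc : Continuous h)
    (hi : Integrable (fun t : ℝ => ‖h t‖)) (k : ℕ)
    (hrep : ∀ v : ℝ, (gk g k v : ℂ) = ∫ t : ℝ, h t * Complex.exp (t * v * Complex.I))
    (x : ℝ) (hx0 : 1 < x) (hx : 1 ≤ Real.log x) {q : ℕ} (χ : DirichletCharacter ℂ q) :
    SS (cx L) g x χ = ((Real.log x : ℂ)⁻¹) ^ k *
      ∫ t, h t * LSeries (co L k χ) (st (Real.log x) t) := by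
  set l := Real.log x with hl
  have hl0 : 0 < l := by linarith
  have hint : ∀ n, Integrable (fun t => h t * LSeries.term (co L k χ) (st l t) n) := by
    intro n
    refine Integrable.mono' (hi.mul_const (bb L k χ l n))
      (hc.mul (continuous_term L k χ l n)).aestronglyMeasurable (Eventually.of_forall fun t => ?_)
    rw [norm_mul, norm_term]
  have hsum : Summable fun n => ∫ t, ‖h t * LSeries.term (co L k χ) (st l t) n‖ := by
    have : (fun n => ∫ t, ‖h t * LSeries.term (co L k χ) (st l t) n‖) =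
        fun n => (∫ t, ‖h t‖) * bb L k χ l n := by
      ext n
      rw [← integral_mul_const]
      congr 1
      ext t
      rw [norm_mul, norm_term]
    rw [this]
    exact (bb_sum hS k χ l hx).1.mul_left _
  have h1 : ∫ t, h t * LSeries (co L k χ) (st l t) =
      ∑' n : ℕ, ∫ t, h t * LSeries.term (co L k χ) (st l t) n := by
    rw [integral_tsum_of_summable_integral_norm hint hsum]
    congr 1
    ext t
    rw [tsum_mul_left]
    rfl
  rw [h1]
  simp only [integral_term L k χ l (gk g k) hrep]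
  rw [← tsum_mul_left]
  have hz : ∀ n ∉ Icc 1 ⌊x⌋₊, ((l : ℂ)⁻¹) ^ k * (co L k χ n * ((n : ℂ)⁻¹ *
      Complex.exp (-(Real.log n / l : ℝ))) * gk g k (Real.log n / l)) = 0 := by
    intro n hn
    rcases eq_or_ne n 0 with rfl | hn0
    · simp [co_zero]
    · have hnx : x < n := by
        by_contra hcon
        push Not at hcon
        exact hn (Finset.mem_Icc.2 ⟨Nat.pos_of_ne_zero hn0, Nat.le_floor hcon⟩)
      have h2 : g (Real.log n / l) = 0 := by
        refine wt_zero hg fun h => ?_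
        have h3 := h.2
        rw [div_lt_one hl0] at h3
        exact absurd (Real.log_lt_log (by linarith) hnx) (not_lt.2 h3.le)
      simp [gk, h2]
  rw [tsum_eq_sum hz]
  unfold SS
  refine Finset.sum_congr rfl fun n hn => ?_
  have hn0 : n ≠ 0 := by
    have := (Finset.mem_Icc.1 hn).1
    omega
  have hnc : (n : ℂ) ≠ 0 := by exact_mod_cast hn0
  have hlogc : Complex.log (n : ℂ) = ((Real.log n : ℝ) : ℂ) := (Complex.natCast_log).symm
  rw [co, cx_apply, wt, gk, hlogc]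
  generalize Real.log (n : ℝ) = Lg
  rcases eq_or_ne Lg 0 with hlog | hlog
  · have h2 : g 0 = 0 := wt_zero hg (by norm_num)
    simp [hlog, h2]
  · have hlc : (l : ℂ) ≠ 0 := by exact_mod_cast hl0.ne'
    have hLc : (Lg : ℂ) ≠ 0 := by exact_mod_cast hlog
    have hexp : Complex.exp (-((Lg : ℂ) / l)) * Complex.exp ((Lg : ℂ) / l) = 1 := by
      rw [← Complex.exp_add]
      simp
    push_cast
    rw [inv_div, div_pow, inv_pow]
    calc _ = (L n : ℂ) * χ (n : ZMod q) * (g (Lg / l) / n) * 1 := by ring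
      _ = (L n : ℂ) * χ (n : ZMod q) * (g (Lg / l) / n) *
          (Complex.exp (-((Lg : ℂ) / l)) * Complex.exp ((Lg : ℂ) / l)) := by
        rw [hexp]
      _ = _ := by
        field_simp

lemma norm_lseries_le (hS : IsSys n r L κ) (k : ℕ) {q : ℕ} (χ : DirichletCharacter ℂ q) (l t : ℝ) (hl : 1 ≤ l) :
    ‖LSeries (co L k χ) (st l t)‖ ≤ (n * ((k + 1).factorial * 2 ^ (k + 1) * 3)) * l ^ (k + 2) := by
  obtain ⟨hs, hle⟩ := bb_sum hS k χ l hl
  refine le_trans ?_ hle
  unfold LSeries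
  refine (norm_tsum_le_tsum_norm ?_).trans (le_of_eq ?_)
  · simp only [norm_term]
    exact hs
  · simp only [norm_term]

/-- Module NF-19. -/
theorem smallF (h0 : Cont) (h1 : NearF) (h2 : FourierRep) : SmallF := by
  intro n r L κ hS g hg A B hA hB
  obtain ⟨Cc, hCc, hcont⟩ := h0 n r L κ hS
  set k : ℕ := ⌈2 * A + 2⌉₊ with hk
  have hkA : 2 * A + 2 ≤ k := Nat.le_ceil _
  set M : ℕ := ⌈A + 2⌉₊ with hM
  have hMA : A + 2 ≤ M := Nat.le_ceil _
  obtain ⟨C1, X1, hC1, hX1, hno⟩ := h1 n r L κ hS B k hB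
  obtain ⟨h, hc, hint, hrep⟩ := h2 (gk g k) (gk_smooth hg k) (gk_compact hg k)
  have hi : Integrable (fun t : ℝ => ‖h t‖) := by
    simpa using hint 0
  set I0 : ℝ := ∫ t, ‖h t‖ with hI0
  set IN : ℝ := ∫ t, (1 + |t|) ^ (4 * M) * ‖h t‖ with hIN
  have hI0' : 0 ≤ I0 := integral_nonneg fun t => norm_nonneg _
  have hIN' : 0 ≤ IN := integral_nonneg fun t => by positivity
  set Ck : ℝ := n * ((k + 1).factorial * 2 ^ (k + 1) * 3) with hCk
  have hCk' : 0 ≤ Ck := by positivity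
  refine ⟨C1 * I0 + Ck * IN + 1, max X1 (Real.exp 16), by positivity,
    hX1.trans (le_max_left _ _), fun x hx q hq hqB χ hχ => ?_⟩
  have hx1 : X1 ≤ x := (le_max_left _ _).trans hx
  have hx16 : Real.exp 16 ≤ x := (le_max_right _ _).trans hx
  have hx0 : 0 < x := (Real.exp_pos _).trans_le hx16
  set l := Real.log x with hl
  have hl16 : 16 ≤ l := by
    rw [hl, Real.le_log_iff_exp_le hx0]
    exact hx16
  have hl0 : 0 < l := by linarith
  have hl1 : 1 ≤ l := by linarith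
  have : NeZero q := ⟨by omega⟩
  have hLF : ∀ s : ℂ, 1 < s.re → ∀ (q : ℕ) [NeZero q] (χ : DirichletCharacter ℂ q), χ ≠ 1 →
      LF (tw r χ) s = LSeries (tw r χ) s := fun s hs q _ χ hχ => (hcont q χ hχ).2.1 s hs
  have hχ1 : χ ≠ 1 := by
    intro h1
    have h3 := (mem_prim.1 hχ)
    rw [h1, DirichletCharacter.isPrimitive_def, DirichletCharacter.conductor_one] at h3
    omega
  rw [identity hS hg hc hi k hrep x (by linarith) hl1 χ, ← hl]
  have hpt : ∀ t : ℝ, ‖h t * LSeries (co L k χ) (st l t)‖ ≤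
      C1 * l ^ (((k : ℝ) + 1) / 2) * ‖h t‖ +
        Ck * l ^ (k + 2) / l ^ M * ((1 + |t|) ^ (4 * M) * ‖h t‖) := by
    intro t
    rw [norm_mul]
    rcases le_or_gt |t| (l ^ (1 / 4 : ℝ)) with ht | ht
    · have h3 := hno x hx1 q hq hqB χ hχ (st l t) (st_sub_one_norm_le l t hl16 ht)
      have h4 : ‖LSeries (co L k χ) (st l t)‖ ≤ C1 * l ^ (((k : ℝ) + 1) / 2) := by
        have hre : 1 < (st l t).re := by
          rw [st_re]
          have : 0 < 1 / l := by positivity
          linarith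
        rw [lseries_co hS hLF k χ hχ1 hre, norm_neg, norm_mul, norm_pow, norm_neg, norm_one,
          one_pow, one_mul]
        exact h3
      have h5 : 0 ≤ Ck * l ^ (k + 2) / l ^ M * ((1 + |t|) ^ (4 * M) * ‖h t‖) := by positivity
      nlinarith [mul_le_mul_of_nonneg_left h4 (norm_nonneg (h t))]
    · have h3 := norm_lseries_le hS k χ l t hl1
      have h4 : l ^ M ≤ (1 + |t|) ^ (4 * M) := by
        have h5 : l = (l ^ (1 / 4 : ℝ)) ^ 4 := by
          rw [← Real.rpow_natCast, ← Real.rpow_mul hl0.le]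
          norm_num
        calc l ^ M = ((l ^ (1 / 4 : ℝ)) ^ 4) ^ M := by rw [← h5]
          _ = (l ^ (1 / 4 : ℝ)) ^ (4 * M) := by rw [pow_mul]
          _ ≤ (1 + |t|) ^ (4 * M) := by
            refine pow_le_pow_left₀ (by positivity) ?_ _
            linarith
      have h5 : 1 ≤ (1 + |t|) ^ (4 * M) / l ^ M := by
        rw [one_le_div (by positivity)]
        exact h4
      have h6 : 0 ≤ C1 * l ^ (((k : ℝ) + 1) / 2) * ‖h t‖ := by positivity
      have h7 : ‖h t‖ * ‖LSeries (co L k χ) (st l t)‖ ≤ ‖h t‖ * (Ck * l ^ (k + 2)) :=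
        mul_le_mul_of_nonneg_left h3 (norm_nonneg _)
      have h8 : ‖h t‖ * (Ck * l ^ (k + 2)) * 1 ≤
          ‖h t‖ * (Ck * l ^ (k + 2)) * ((1 + |t|) ^ (4 * M) / l ^ M) :=
        mul_le_mul_of_nonneg_left h5 (by positivity)
      have h9 : ‖h t‖ * (Ck * l ^ (k + 2)) * ((1 + |t|) ^ (4 * M) / l ^ M) =
          Ck * l ^ (k + 2) / l ^ M * ((1 + |t|) ^ (4 * M) * ‖h t‖) := by
        ring
      linarith
  have hbound : ‖∫ t, h t * LSeries (co L k χ) (st l t)‖ ≤
      C1 * l ^ (((k : ℝ) + 1) / 2) * I0 + Ck * l ^ (k + 2) / l ^ M * IN := by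
    have hi1 : Integrable fun t : ℝ => C1 * l ^ (((k : ℝ) + 1) / 2) * ‖h t‖ := hi.const_mul _
    have hi2 : Integrable fun t : ℝ =>
        Ck * l ^ (k + 2) / l ^ M * ((1 + |t|) ^ (4 * M) * ‖h t‖) := (hint (4 * M)).const_mul _
    refine (norm_integral_le_of_norm_le (hi1.add hi2) (Eventually.of_forall hpt)).trans
      (le_of_eq ?_)
    simp only [Pi.add_apply]
    rw [integral_add hi1 hi2, integral_const_mul, integral_const_mul]
  rw [norm_mul, norm_pow, norm_inv, Complex.norm_real, Real.norm_of_nonneg hl0.le]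
  have hA1 : (l⁻¹) ^ k * l ^ (((k : ℝ) + 1) / 2) ≤ l ^ (-A) := by
    rw [← Real.rpow_natCast, Real.inv_rpow hl0.le, ← Real.rpow_neg hl0.le, ← Real.rpow_add hl0]
    exact Real.rpow_le_rpow_of_exponent_le hl1 (by linarith)
  have hA2 : (l⁻¹) ^ k * (l ^ (k + 2) / l ^ M) ≤ l ^ (-A) := by
    have : (l⁻¹) ^ k * (l ^ (k + 2) / l ^ M) = l ^ ((2 : ℝ) - M) := by
      rw [Real.rpow_sub hl0, Real.rpow_natCast, inv_pow, pow_add]
      norm_cast
      field_simp
    rw [this]
    exact Real.rpow_le_rpow_of_exponent_le hl1 (by linarith)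
  have hlA : 0 < l ^ (-A) := Real.rpow_pos_of_pos hl0 _
  calc (l⁻¹) ^ k * ‖∫ t, h t * LSeries (co L k χ) (st l t)‖ ≤
      (l⁻¹) ^ k * (C1 * l ^ (((k : ℝ) + 1) / 2) * I0 + Ck * l ^ (k + 2) / l ^ M * IN) :=
        mul_le_mul_of_nonneg_left hbound (by positivity)
    _ = C1 * I0 * ((l⁻¹) ^ k * l ^ (((k : ℝ) + 1) / 2)) +
        Ck * IN * ((l⁻¹) ^ k * (l ^ (k + 2) / l ^ M)) := by ring
    _ ≤ C1 * I0 * l ^ (-A) + Ck * IN * l ^ (-A) :=
        add_le_add (mul_le_mul_of_nonneg_left hA1 (by positivity))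
          (mul_le_mul_of_nonneg_left hA2 (by positivity))
    _ ≤ (C1 * I0 + Ck * IN + 1) * l ^ (-A) := by nlinarith
    _ = (C1 * I0 + Ck * IN + 1) / l ^ A := by
        rw [Real.rpow_neg hl0.le, div_eq_mul_inv]

end Pool.Agent.Helper30.NF
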